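import Pool.Agent.helper95.T6.SpecE
import Pool.Agent.helper5.T5.STW
import Pool.Agent.helper19.T5.AIST

/-! Row t6l:EDI (MP_16912e_nt): congruences and bad primes. -/

set_option autoImplicit false

namespace Pool.Agent.T6

open Finset Pool.Agent.helper3.FT Pool.Agent.T5

theorem EDI : EDI_stmt := by
  refine ⟨?_, ?_⟩
  · intro e t ht hc
    obtain ⟨hn, hk, hm, hg, hz⟩ := hc
    obtain ⟨e1, -, -, -, e5, -⟩ := AIST t ht
    have key : ∀ a : ℤ, (e : ℤ) ∣ a ↔ ((a : ℤ) : ZMod e) = 0 := fun a =>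
      (CharP.intCast_eq_zero_iff (ZMod e) e a).symm
    rw [key] at hn hk hm hg hz ⊢
    obtain ⟨Λ, hΛ⟩ : ∃ Λ, Λ = lam t := ⟨_, rfl⟩
    obtain ⟨D, hD⟩ : ∃ D, D = dis t := ⟨_, rfl⟩
    obtain ⟨n, hn0⟩ : ∃ n : ℤ, n = (t.1.1 : ℤ) := ⟨_, rfl⟩
    obtain ⟨k, hk0⟩ : ∃ k : ℤ, k = (t.1.2 : ℤ) := ⟨_, rfl⟩
    rw [← hΛ, ← hn0, ← hk0] at e1
    rw [← hΛ, ← hD, ← hn0, ← hk0] at e5
    rw [← hn0] at hn
    rw [← hk0] at hk
    rw [← hD]
    have f1 := congrArg (fun x : ℤ => (x : ZMod e)) e1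
    have f5 := congrArg (fun x : ℤ => (x : ZMod e)) e5
    push_cast at f1 f5 hn hk hm hg hz ⊢
    have hn' : (n : ZMod e) = 1 := sub_eq_zero.1 hn
    have hk' : (k : ZMod e) = 1 := sub_eq_zero.1 hk
    have hg' : ((t.2.2.1 : ℤ) : ZMod e) = 1 := sub_eq_zero.1 hg
    have hz' : ((t.2.2.2 : ℤ) : ZMod e) = 1 := sub_eq_zero.1 hz
    rw [hn', hk', hg', hz', hm] at f1
    have hL : (Λ : ZMod e) = 1 := by linear_combination f1
    rw [hn', hk', hg', hz', hm, hL] at f5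
    linear_combination f5
  · intro p t hp hp2 ht hd hZ
    have hpZ : Prime (p : ℤ) := Nat.prime_iff_prime_int.1 hp
    have h1 := STW AIST t p ht hp (by omega) hd (hpZ.dvd_or_dvd hZ)
    exact h1

end Pool.Agent.T6
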