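import Pool.Agent.helper3.T6.SpecH

/-! Row t6:HSUM (MP_16912e_nt): the dyadic sum. -/

set_option autoImplicit false

namespace Pool.Agent.T6

open Finset NumberField Pool.Agent.helper3.FT Pool.Agent.helper47.RA Pool.Agent.T5
open scoped nonZeroDivisors

theorem HSUM_geo (I : ℕ) : ∑ i ∈ range I, ((i : ℝ) + 1) / 2 ^ i ≤ 4 - (2 * (I : ℝ) + 4) / 2 ^ I := by
  induction I with
  | zero => norm_num
  | succ n ih =>
    rw [Finset.sum_range_succ]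
    have h2 : (0 : ℝ) < 2 ^ n := by positivity
    have e1 : (4 : ℝ) - (2 * ((n + 1 : ℕ) : ℝ) + 4) / 2 ^ (n + 1) =
        4 - (2 * (n : ℝ) + 4) / 2 ^ n + ((n : ℝ) + 1) / 2 ^ n := by
      push_cast
      rw [pow_succ]
      field_simp
      ring
    rw [e1]
    linarith

theorem HSUM_geo2 (J : ℕ) : ∑ j ∈ range J, (1 : ℝ) / 2 ^ j ≤ 2 := by
  have h : ∀ J : ℕ, ∑ j ∈ range J, (1 : ℝ) / 2 ^ j = 2 - 2 / 2 ^ J := by
    intro J
    induction J with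
    | zero => norm_num
    | succ n ih =>
      rw [Finset.sum_range_succ, ih]
      have h2 : (0 : ℝ) < 2 ^ n := by positivity
      rw [pow_succ]
      field_simp
      ring
  rw [h J]
  have : (0 : ℝ) < 2 / 2 ^ J := by positivity
  linarith

theorem HSUM_one (hHCL : HCL_stmt) (hSC1 : SC1_stmt) (h : ℤ → ℕ)
    (hh : ∀ (K : Type) [Field K] [NumberField K], Module.finrank ℚ K = 2 →
      h (NumberField.discr K) = Nat.card {x : ClassGroup (𝓞 K) // x ^ 5 = 1})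
    (N : ℝ) (hN : 1 ≤ N) (I J : ℕ) (hJ : √N / 2 ^ I < 2 ^ J) (D : ℤ) (hD : D ∈ DN N) :
    (h D : ℝ) ≤ 1 + 2 * ((∑ i ∈ range I, ∑ j ∈ range (i + 1),
      SF (fun _ E => ((IM E.Q (√N / 2 ^ i) (√N / 2 ^ (j + 1))).ncard : ℝ)) D) +
      ∑ j ∈ range J, (cA D (√N / 2 ^ I / 2 ^ j) : ℝ)) := by
  classical
  rw [DN, Finset.mem_filter, Finset.mem_Icc] at hD
  obtain ⟨⟨hD1, hD2⟩, hF, hD3⟩ := hD
  have hD0 : D < 0 := by omega
  have hne : Nonempty (Fld D) := SFA.2.2 D hF hD0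
  have hNs : (0 : ℝ) < √N := Real.sqrt_pos.mpr (by linarith)
  have e1 := hh hne.some.K hne.some.fin
  rw [hne.some.dK] at e1
  have hQ : hne.some.Q.D < 0 := by rw [hne.some.hD]; exact hD0
  have hDN : -(D : ℝ) ≤ N := by
    have h1 : ((-D : ℤ) : ℝ) ≤ ((⌊N⌋ : ℤ) : ℝ) := by
      have : -D ≤ ⌊N⌋ := by omega
      exact_mod_cast this
    have h2 : ((⌊N⌋ : ℤ) : ℝ) ≤ N := Int.floor_le N
    push_cast at h1
    linarith
  have hs : √|(hne.some.Q.D : ℝ)| ≤ √N := by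
    apply Real.sqrt_le_sqrt
    rw [hne.some.hD, abs_of_neg (by exact_mod_cast hD0)]
    exact hDN
  have e2 := hHCL hne.some.K hne.some.Q hne.some.fin hQ (√N) I hs
  rw [← e1] at e2
  have e3 := (hSC1 hne.some.K hne.some.Q hne.some.fin hQ (√N / 2 ^ I) J (by positivity) hJ).1
  have e4 : ∀ i j : ℕ, SF (fun _ E => ((IM E.Q (√N / 2 ^ i) (√N / 2 ^ (j + 1))).ncard : ℝ)) D =
      ((IM hne.some.Q (√N / 2 ^ i) (√N / 2 ^ (j + 1))).ncard : ℝ) := by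
    intro i j
    rw [SF, dif_pos hne]
  have e5 : ∀ Y : ℝ, cA D Y = (IA hne.some.K Y).ncard := by
    intro Y
    rw [cA, dif_pos hne]
  have e6 : ((CLS hne.some.K (√N / 2 ^ I)).ncard : ℝ) ≤
      ∑ j ∈ range J, ((IA hne.some.K (√N / 2 ^ I / 2 ^ j)).ncard : ℝ) := by
    exact_mod_cast e3
  simp only [e4, e5]
  linarith

theorem HSUM (hHMN : HMN_stmt) (hHCL : HCL_stmt) (hU : U_stmt) (hSC1 : SC1_stmt) : HSUM_stmt := by
  obtain ⟨η', C₁, N₁, hη', hC₁, hM⟩ := hHMN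
  obtain ⟨η, hη, hη1, hη2⟩ : ∃ η : ℝ, 0 < η ∧ η ≤ η' ∧ η ≤ 1 / 2 :=
    ⟨min η' (1 / 2), lt_min hη' (by norm_num), min_le_left _ _, min_le_right _ _⟩
  obtain ⟨C₂, hC₂, hU'⟩ := hU (η / 2) (by linarith)
  refine ⟨1 + 8 * C₁ + 8 * C₂, max N₁ 1, by linarith, le_max_right _ _, ?_⟩
  intro h hh N hN
  have hNN₁ : N₁ ≤ N := le_trans (le_max_left _ _) hN
  have hN1 : 1 ≤ N := le_trans (le_max_right _ _) hN
  have hN0 : 0 < N := by linarith
  have hsN : (0 : ℝ) < √N := Real.sqrt_pos.mpr hN0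
  have hsq : √N * √N = N := Real.mul_self_sqrt hN0.le
  have hs1 : 1 ≤ √N := by
    rw [Real.one_le_sqrt]
    exact hN1
  have hsN' : √N ≤ N := by nlinarith
  have hx1 : 1 ≤ N ^ η := Real.one_le_rpow hN1 hη.le
  obtain ⟨I, hI1, hI2⟩ := exists_nat_pow_near hx1 (by norm_num : (1 : ℝ) < 2)
  have h2I : (0 : ℝ) < 2 ^ I := by positivity
  have hxs : N ^ η ≤ √N := by
    rw [Real.sqrt_eq_rpow]
    exact Real.rpow_le_rpow_of_exponent_le hN1 hη2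
  have hY1 : 1 ≤ √N / 2 ^ I := by
    rw [le_div_iff₀ h2I]
    linarith
  obtain ⟨n, hn1, hn2⟩ := exists_nat_pow_near hY1 (by norm_num : (1 : ℝ) < 2)
  have hstep : ∀ D ∈ DN N, (h D : ℝ) ≤ 1 + 2 * ((∑ i ∈ range I, ∑ j ∈ range (i + 1),
      SF (fun _ E => ((IM E.Q (√N / 2 ^ i) (√N / 2 ^ (j + 1))).ncard : ℝ)) D) +
      ∑ j ∈ range (n + 1), (cA D (√N / 2 ^ I / 2 ^ j) : ℝ)) := by
    intro D hD
    exact HSUM_one hHCL hSC1 h hh N hN1 I (n + 1) hn2 D hD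
  -- (a)
  have ha : ((DN N).card : ℝ) ≤ N := by
    have h1 : (DN N).card ≤ (Icc (-⌊N⌋) (-1)).card := by
      classical
      unfold DN
      exact Finset.card_filter_le _ _
    rw [Int.card_Icc] at h1
    have h0 : 0 ≤ ⌊N⌋ := Int.floor_nonneg.mpr hN0.le
    have h2 : (-1 + 1 - -⌊N⌋).toNat = ⌊N⌋.toNat := by
      congr 1
      ring
    rw [h2] at h1
    have h3 : ((⌊N⌋.toNat : ℕ) : ℝ) = ((⌊N⌋ : ℤ) : ℝ) := by
      have := Int.toNat_of_nonneg h0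
      exact_mod_cast this
    calc ((DN N).card : ℝ) ≤ ((⌊N⌋.toNat : ℕ) : ℝ) := by exact_mod_cast h1
      _ = ((⌊N⌋ : ℤ) : ℝ) := h3
      _ ≤ N := Int.floor_le N
  -- (b)
  have hb : ∀ i ∈ range I, ∀ j ∈ range (i + 1),
      ∑ D ∈ DN N, SF (fun _ E => ((IM E.Q (√N / 2 ^ i) (√N / 2 ^ (j + 1))).ncard : ℝ)) D ≤
        C₁ * N / 2 ^ i := by
    intro i hi j hj
    rw [Finset.mem_range] at hi hj
    have h2i : (0 : ℝ) < 2 ^ i := by positivity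
    have h2j : (0 : ℝ) < 2 ^ j := by positivity
    have hij : (2 : ℝ) ^ j ≤ 2 ^ i := pow_le_pow_right₀ (by norm_num) (by omega)
    have hiI : (2 : ℝ) ^ i ≤ 2 ^ I := pow_le_pow_right₀ (by norm_num) hi.le
    have e2l : 2 * (√N / 2 ^ (j + 1)) = √N / 2 ^ j := by
      rw [pow_succ]
      field_simp
    have c1 : N ^ (1 / 2 - η') ≤ √N / 2 ^ i := by
      calc N ^ (1 / 2 - η') ≤ N ^ (1 / 2 - η) := Real.rpow_le_rpow_of_exponent_le hN1 (by linarith)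
        _ = √N / N ^ η := by rw [Real.rpow_sub hN0, ← Real.sqrt_eq_rpow]
        _ ≤ √N / 2 ^ i := div_le_div_of_nonneg_left hsN.le h2i (le_trans hiI hI1)
    have c2 : √N / 2 ^ i ≤ 2 * (√N / 2 ^ (j + 1)) := by
      rw [e2l]
      exact div_le_div_of_nonneg_left hsN.le h2j hij
    have c3 : 2 * (√N / 2 ^ (j + 1)) ≤ √N := by
      rw [e2l, div_le_iff₀ h2j]
      have : (1 : ℝ) ≤ 2 ^ j := one_le_pow₀ (by norm_num)
      nlinarith
    have := hM N (√N / 2 ^ i) (√N / 2 ^ (j + 1)) hNN₁ c1 c2 c3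
    refine le_trans this (le_of_eq ?_)
    have : √N * (√N / 2 ^ i) = N / 2 ^ i := by
      rw [← mul_div_assoc, hsq]
    rw [this, mul_div_assoc]
  -- (c)
  have hc : ∀ j ∈ range (n + 1), ∑ D ∈ DN N, (cA D (√N / 2 ^ I / 2 ^ j) : ℝ) ≤ 2 * C₂ * N * (1 / 2 ^ j) := by
    intro j hj
    rw [Finset.mem_range] at hj
    have h2j : (0 : ℝ) < 2 ^ j := by positivity
    have h2j1 : (1 : ℝ) ≤ 2 ^ j := one_le_pow₀ (by norm_num)
    have hjn : (2 : ℝ) ^ j ≤ 2 ^ n := pow_le_pow_right₀ (by norm_num) (by omega)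
    have hyj : 1 ≤ √N / 2 ^ I / 2 ^ j := by
      rw [le_div_iff₀ h2j]
      linarith
    have h2I1 : (1 : ℝ) ≤ 2 ^ I := one_le_pow₀ (by norm_num)
    have hyN : √N / 2 ^ I / 2 ^ j ≤ N := by
      have a1 : √N / 2 ^ I ≤ √N := div_le_self hsN.le h2I1
      have a2 : √N / 2 ^ I / 2 ^ j ≤ √N / 2 ^ I := div_le_self (by positivity) h2j1
      linarith
    have hu := hU' N (√N / 2 ^ I / 2 ^ j) hN1 hyj
    refine le_trans hu ?_
    have b1 : (N * (√N / 2 ^ I / 2 ^ j)) ^ (η / 2) ≤ N ^ η := by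
      calc (N * (√N / 2 ^ I / 2 ^ j)) ^ (η / 2) ≤ (N * N) ^ (η / 2) :=
            Real.rpow_le_rpow (by positivity) (mul_le_mul_of_nonneg_left hyN hN0.le) (by linarith)
        _ = N ^ η := by
            rw [Real.mul_rpow hN0.le hN0.le, ← Real.rpow_add hN0]
            congr 1
            ring
    have b2 : (0 : ℝ) ≤ √N / 2 ^ I / 2 ^ j * √N := by positivity
    calc C₂ * (N * (√N / 2 ^ I / 2 ^ j)) ^ (η / 2) * (√N / 2 ^ I / 2 ^ j * √N)
        ≤ C₂ * N ^ η * (√N / 2 ^ I / 2 ^ j * √N) :=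
          mul_le_mul_of_nonneg_right (mul_le_mul_of_nonneg_left b1 (by linarith)) b2
      _ ≤ C₂ * 2 ^ (I + 1) * (√N / 2 ^ I / 2 ^ j * √N) :=
          mul_le_mul_of_nonneg_right (mul_le_mul_of_nonneg_left hI2.le (by linarith)) b2
      _ = 2 * C₂ * (√N * √N) * (1 / 2 ^ j) := by
          rw [pow_succ]
          field_simp
      _ = 2 * C₂ * N * (1 / 2 ^ j) := by rw [hsq]
  -- total
  have hB : ∑ D ∈ DN N, ∑ i ∈ range I, ∑ j ∈ range (i + 1),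
      SF (fun _ E => ((IM E.Q (√N / 2 ^ i) (√N / 2 ^ (j + 1))).ncard : ℝ)) D ≤ 4 * C₁ * N := by
    rw [Finset.sum_comm]
    calc ∑ i ∈ range I, ∑ D ∈ DN N, ∑ j ∈ range (i + 1),
          SF (fun _ E => ((IM E.Q (√N / 2 ^ i) (√N / 2 ^ (j + 1))).ncard : ℝ)) D
        ≤ ∑ i ∈ range I, (C₁ * N) * (((i : ℝ) + 1) / 2 ^ i) := by
          apply Finset.sum_le_sum
          intro i hi
          rw [Finset.sum_comm]
          calc ∑ j ∈ range (i + 1), ∑ D ∈ DN N,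
                SF (fun _ E => ((IM E.Q (√N / 2 ^ i) (√N / 2 ^ (j + 1))).ncard : ℝ)) D
              ≤ ∑ j ∈ range (i + 1), C₁ * N / 2 ^ i := Finset.sum_le_sum (hb i hi)
            _ = (C₁ * N) * (((i : ℝ) + 1) / 2 ^ i) := by
                rw [Finset.sum_const, Finset.card_range, nsmul_eq_mul]
                push_cast
                ring
      _ = (C₁ * N) * ∑ i ∈ range I, ((i : ℝ) + 1) / 2 ^ i := by rw [← Finset.mul_sum]
      _ ≤ (C₁ * N) * 4 := by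
          apply mul_le_mul_of_nonneg_left _ (by positivity)
          have g1 := HSUM_geo I
          have g2 : (0 : ℝ) ≤ (2 * (I : ℝ) + 4) / 2 ^ I := by positivity
          linarith
      _ = 4 * C₁ * N := by ring
  have hC : ∑ D ∈ DN N, ∑ j ∈ range (n + 1), (cA D (√N / 2 ^ I / 2 ^ j) : ℝ) ≤ 4 * C₂ * N := by
    rw [Finset.sum_comm]
    calc ∑ j ∈ range (n + 1), ∑ D ∈ DN N, (cA D (√N / 2 ^ I / 2 ^ j) : ℝ)
        ≤ ∑ j ∈ range (n + 1), 2 * C₂ * N * (1 / 2 ^ j) := Finset.sum_le_sum hc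
      _ = 2 * C₂ * N * ∑ j ∈ range (n + 1), (1 : ℝ) / 2 ^ j := by rw [← Finset.mul_sum]
      _ ≤ 2 * C₂ * N * 2 := by
          apply mul_le_mul_of_nonneg_left (HSUM_geo2 (n + 1)) (by positivity)
      _ = 4 * C₂ * N := by ring
  calc ∑ D ∈ DN N, (h D : ℝ)
      ≤ ∑ D ∈ DN N, (1 + 2 * ((∑ i ∈ range I, ∑ j ∈ range (i + 1),
        SF (fun _ E => ((IM E.Q (√N / 2 ^ i) (√N / 2 ^ (j + 1))).ncard : ℝ)) D) +
        ∑ j ∈ range (n + 1), (cA D (√N / 2 ^ I / 2 ^ j) : ℝ))) := Finset.sum_le_sum hstep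
    _ = ((DN N).card : ℝ) + 2 * ((∑ D ∈ DN N, ∑ i ∈ range I, ∑ j ∈ range (i + 1),
        SF (fun _ E => ((IM E.Q (√N / 2 ^ i) (√N / 2 ^ (j + 1))).ncard : ℝ)) D) +
        ∑ D ∈ DN N, ∑ j ∈ range (n + 1), (cA D (√N / 2 ^ I / 2 ^ j) : ℝ)) := by
        rw [Finset.sum_add_distrib, ← Finset.mul_sum, Finset.sum_add_distrib, Finset.sum_const, nsmul_eq_mul, mul_one]
    _ ≤ (1 + 8 * C₁ + 8 * C₂) * N := by nlinarith

end Pool.Agent.T6
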